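import Pool.Agent.Lib.MP_5eb8b0_lc.Par

/-!
# The cyclicity criterion
-/

set_option autoImplicit false

namespace ExtGoppa

open Polynomial

section

variable {F V : Type} [Field F] [AddCommGroup V] [Module F V] {P : Type} [Fintype P]

theorem exists_factor {W : Type} [AddCommGroup W] [Module F W] (f g : W →ₗ[F] V) (h : LinearMap.ker f ≤ LinearMap.ker g) :
    ∃ M : V →ₗ[F] V, ∀ c, M (f c) = g c := by
  let g' : (W ⧸ LinearMap.ker f) →ₗ[F] V := (LinearMap.ker f).liftQ g h
  let M0 : LinearMap.range f →ₗ[F] V := g'.comp (f.quotKerEquivRange.symm : LinearMap.range f →ₗ[F] (W ⧸ LinearMap.ker f))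
  obtain ⟨M, hM⟩ := LinearMap.exists_extend M0
  refine ⟨M, fun c => ?_⟩
  have h1 : M (f c) = M0 ⟨f c, LinearMap.mem_range_self f c⟩ := by
    rw [← hM]
    rfl
  rw [h1]
  show g' (f.quotKerEquivRange.symm ⟨f c, LinearMap.mem_range_self f c⟩) = g c
  have h2 : f.quotKerEquivRange.symm ⟨f c, LinearMap.mem_range_self f c⟩ = (LinearMap.ker f).mkQ c := by
    rw [LinearEquiv.symm_apply_eq]
    rfl
  rw [h2]
  rfl

theorem ps_succ (M : V →ₗ[F] V) (b : V) (k : ℕ) :
    ∑ i ∈ Finset.range (k + 1), (M ^ i) b = M (∑ i ∈ Finset.range k, (M ^ i) b) + b := by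
  rw [Finset.sum_range_succ', map_sum]
  congr 1
  refine Finset.sum_congr rfl fun i _ => ?_
  rw [pow_succ', Module.End.mul_apply]

theorem cyc_iff (C : Submodule F (P → F)) (v : P → V) (p0 : P) (h0 : v p0 = 0)
    (hC : ∀ c, c ∈ C ↔ ∑ p, c p = 0 ∧ ∑ p, c p • v p = 0) (hv : Function.Injective v) :
    IsCyclicCode C ↔ ∃ (M : V →ₗ[F] V) (b : V), ∑ i ∈ Finset.range (Fintype.card P), (M ^ i) b = 0 ∧
      Set.range v = (fun k => ∑ i ∈ Finset.range k, (M ^ i) b) '' Set.Iio (Fintype.card P) := by
  classical
  have hP : Nonempty P := ⟨p0⟩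
  have hN0 : Fintype.card P ≠ 0 := Fintype.card_ne_zero
  have hNZ : NeZero (Fintype.card P) := ⟨hN0⟩
  constructor
  · rintro ⟨e, he⟩
    let σ : P ≃ P := e.trans ((Equiv.addRight (1 : ZMod (Fintype.card P))).trans e.symm)
    have hσe : ∀ p, e (σ p) = e p + 1 := fun p => by
      show e (e.symm (e p + 1)) = e p + 1
      rw [Equiv.apply_symm_apply]
    have hσ : ∀ c ∈ C, ∑ q, c q • v (σ q) = 0 := by
      intro c hc
      have h1 := ((hC _).1 (he c hc)).2
      rw [← Equiv.sum_comp σ] at h1
      simp only [hσe, add_sub_cancel_right, Equiv.symm_apply_apply] at h1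
      exact h1
    let b : V := v (σ p0)
    obtain ⟨M, hM⟩ := exists_factor (Fintype.linearCombination F v)
      (Fintype.linearCombination F (fun q => v (σ q) - b)) (by
        intro c hc
        rw [LinearMap.mem_ker, Fintype.linearCombination_apply] at hc ⊢
        have h2 : c - Pi.single p0 (∑ p, c p) ∈ C := by
          rw [hC]
          constructor
          · simp only [Pi.sub_apply, Finset.sum_sub_distrib]
            rw [Finset.sum_pi_single']
            simp
          · simp only [Pi.sub_apply, sub_smul, Finset.sum_sub_distrib, hc]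
            rw [Finset.sum_eq_single p0]
            · rw [h0, smul_zero, sub_zero]
            · intro q _ hq
              rw [Pi.single_eq_of_ne hq, zero_smul]
            · intro h
              exact absurd (Finset.mem_univ _) h
        have h3 := hσ _ h2
        simp only [Pi.sub_apply, sub_smul, Finset.sum_sub_distrib] at h3
        have h4 : ∑ q, (Pi.single p0 (∑ p, c p) : P → F) q • v (σ q) = (∑ p, c p) • b := by
          rw [Finset.sum_eq_single p0]
          · rw [Pi.single_eq_same]
          · intro q _ hq
            rw [Pi.single_eq_of_ne hq, zero_smul]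
          · intro h
            exact absurd (Finset.mem_univ _) h
        rw [h4] at h3
        simp only [smul_sub, Finset.sum_sub_distrib, ← Finset.sum_smul]
        exact h3)
    have hMv : ∀ q, M (v q) = v (σ q) - b := by
      intro q
      have h1 := hM (Pi.single q 1)
      rw [Fintype.linearCombination_apply_single, Fintype.linearCombination_apply_single, one_smul, one_smul] at h1
      exact h1
    have hs : ∀ k : ℕ, v (σ^[k] p0) = ∑ i ∈ Finset.range k, (M ^ i) b := by
      intro k
      induction k with
      | zero => simpa using h0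
      | succ k ih =>
        rw [Function.iterate_succ_apply', ps_succ, ← ih, hMv, sub_add_cancel]
    have hek : ∀ k : ℕ, e (σ^[k] p0) = e p0 + k := by
      intro k
      induction k with
      | zero => simp
      | succ k ih =>
        rw [Function.iterate_succ_apply', hσe, ih]
        push_cast
        ring
    refine ⟨M, b, ?_, ?_⟩
    · rw [← hs]
      have h1 : σ^[Fintype.card P] p0 = p0 := by
        apply e.injective
        rw [hek, ZMod.natCast_self, add_zero]
      rw [h1, h0]
    · ext x
      constructor
      · rintro ⟨p, rfl⟩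
        refine ⟨(e p - e p0).val, ZMod.val_lt _, ?_⟩
        show ∑ i ∈ Finset.range (e p - e p0).val, (M ^ i) b = v p
        rw [← hs]
        congr 1
        apply e.injective
        rw [hek, ZMod.natCast_zmod_val]
        ring
      · rintro ⟨k, -, rfl⟩
        exact ⟨σ^[k] p0, hs k⟩
  · rintro ⟨M, b, hN, hr⟩
    have hτ : ∀ k : ZMod (Fintype.card P), ∃ p, v p = ∑ i ∈ Finset.range k.val, (M ^ i) b := by
      intro k
      have h1 : ∑ i ∈ Finset.range k.val, (M ^ i) b ∈ Set.range v := by
        rw [hr]
        exact ⟨k.val, ZMod.val_lt _, rfl⟩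
      exact h1
    choose τ hτ using hτ
    have hsurj : Function.Surjective τ := by
      intro p
      have h1 : v p ∈ (fun k => ∑ i ∈ Finset.range k, (M ^ i) b) '' Set.Iio (Fintype.card P) := by
        rw [← hr]
        exact ⟨p, rfl⟩
      obtain ⟨k, hk, hkp⟩ := h1
      refine ⟨(k : ZMod (Fintype.card P)), hv ?_⟩
      rw [hτ, ZMod.val_natCast_of_lt hk]
      exact hkp
    have hbij : Function.Bijective τ := by
      rw [Fintype.bijective_iff_surjective_and_card]
      exact ⟨hsurj, ZMod.card _⟩
    let t : ZMod (Fintype.card P) ≃ P := Equiv.ofBijective τ hbij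
    have ht : ∀ k, v (t k) = ∑ i ∈ Finset.range k.val, (M ^ i) b := hτ
    have hstep : ∀ k, v (t (k + 1)) = M (v (t k)) + b := by
      intro k
      rw [ht, ht, ← ps_succ]
      by_cases hk : k.val + 1 < Fintype.card P
      · have h1 : Fintype.card P ≠ 1 := by omega
        rw [ZMod.val_add_of_lt (by rw [ZMod.val_one'' h1]; exact hk), ZMod.val_one'' h1]
      · have h1 : k.val + 1 = Fintype.card P := by
          have := ZMod.val_lt k
          omega
        rw [h1, hN]
        have h2 : k + 1 = 0 := by
          rw [← ZMod.natCast_zmod_val k, ← Nat.cast_one, ← Nat.cast_add, h1, ZMod.natCast_self]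
        rw [h2, ZMod.val_zero]
        simp
    refine ⟨t.symm, fun c hc => ?_⟩
    obtain ⟨hc1, hc2⟩ := (hC c).1 hc
    rw [hC]
    constructor
    · show ∑ p, c (t (t.symm p - 1)) = 0
      have h1 : ∑ p, c (((t.symm.trans (Equiv.subRight 1)).trans t) p) = ∑ p, c p := Equiv.sum_comp _ c
      rw [← hc1, ← h1]
      rfl
    · show ∑ p, c (t (t.symm p - 1)) • v p = 0
      rw [← Equiv.sum_comp ((Equiv.addRight (1 : ZMod (Fintype.card P))).trans t)]
      have h1 : ∀ k, c (t (t.symm (((Equiv.addRight (1 : ZMod (Fintype.card P))).trans t) k) - 1)) •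
          v (((Equiv.addRight (1 : ZMod (Fintype.card P))).trans t) k) = c (t k) • M (v (t k)) + c (t k) • b := by
        intro k
        show c (t (t.symm (t (k + 1)) - 1)) • v (t (k + 1)) = _
        rw [Equiv.symm_apply_apply, add_sub_cancel_right, hstep, smul_add]
      rw [Finset.sum_congr rfl fun k _ => h1 k, Finset.sum_add_distrib, ← Finset.sum_smul,
        Equiv.sum_comp t c, hc1, zero_smul, add_zero]
      simp only [← map_smul, ← map_sum]
      rw [Equiv.sum_comp t (fun p => c p • v p), hc2, map_zero]

/-- the columns of a code of minimum distance at least three are distinct -/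
theorem col_inj (C : Submodule F (P → F)) (v : P → V)
    (hC : ∀ c, c ∈ C ↔ ∑ p, c p = 0 ∧ ∑ p, c p • v p = 0) (hn : ∀ c ∈ C, c ≠ 0 → 3 ≤ {p | c p ≠ 0}.ncard) :
    Function.Injective v := by
  classical
  intro p q hpq
  by_contra hne
  have h1 : (Pi.single p 1 - Pi.single q 1 : P → F) ∈ C := by
    rw [hC]
    constructor
    · simp only [Pi.sub_apply, Finset.sum_sub_distrib]
      rw [Finset.sum_pi_single', Finset.sum_pi_single']
      simp
    · have h2 := Fintype.linearCombination_apply_single F v p 1
      have h3 := Fintype.linearCombination_apply_single F v q 1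
      rw [Fintype.linearCombination_apply] at h2 h3
      simp only [Pi.sub_apply, sub_smul, Finset.sum_sub_distrib]
      rw [h2, h3, hpq, sub_self]
  have h2 : (Pi.single p 1 - Pi.single q 1 : P → F) ≠ 0 := by
    intro h
    have h3 := congrFun h p
    rw [Pi.sub_apply, Pi.single_eq_same, Pi.single_eq_of_ne hne, sub_zero] at h3
    exact one_ne_zero h3
  have h3 := hn _ h1 h2
  have h4 : {r | (Pi.single p 1 - Pi.single q 1 : P → F) r ≠ 0} ⊆ ({p, q} : Set P) := by
    intro r hr
    by_contra h5
    simp only [Set.mem_insert_iff, Set.mem_singleton_iff, not_or] at h5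
    apply hr
    rw [Pi.sub_apply, Pi.single_eq_of_ne h5.1, Pi.single_eq_of_ne h5.2, sub_zero]
  have h5 := Set.ncard_le_ncard h4 (Set.toFinite _)
  have h6 : ({p, q} : Set P).ncard ≤ 2 := by
    have h7 := Set.ncard_insert_le p ({q} : Set P)
    rw [Set.ncard_singleton] at h7
    exact h7
  omega

end

end ExtGoppa
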