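import Mathlib

/-!
# Extended Goppa codes: definitions
-/

set_option autoImplicit false

namespace ExtGoppa

open Polynomial

section

variable (F : Type) {K : Type} [Field F] [Field K] [Algebra F K]

/-- The inverse of the class of `z - a` modulo `G` (the class is a unit if `G(a) ≠ 0`). -/
noncomputable def invMod (G : K[X]) (a : K) : K[X] ⧸ Ideal.span {G} :=
  Ring.inverse (Ideal.Quotient.mk (Ideal.span {G}) (X - C a))

/-- The Goppa code `Γ(L, G)`: the words `c` over `F`, indexed by `L`, with `∑ c_a / (z - a) = 0` modulo `G`. -/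
noncomputable def goppa (G : K[X]) (L : Finset K) : Submodule F (L → F) where
  carrier := {c | ∑ a : L, Ideal.Quotient.mk (Ideal.span {G}) (C (algebraMap F K (c a))) * invMod G a = 0}
  add_mem' := by
    intro c d hc hd
    simp only [Set.mem_ofPred_eq] at hc hd ⊢
    simp only [Pi.add_apply, map_add, add_mul, Finset.sum_add_distrib, hc, hd, add_zero]
  zero_mem' := by
    simp
  smul_mem' := by
    intro x c hc
    simp only [Set.mem_ofPred_eq] at hc ⊢
    simp only [Pi.smul_apply, smul_eq_mul, map_mul, mul_assoc, ← Finset.mul_sum, hc, mul_zero]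

/-- The extended Goppa code: the coordinate `∞ = none` is `c_∞ = - ∑ c_a`. -/
noncomputable def extGoppa (G : K[X]) (L : Finset K) : Submodule F (Option L → F) where
  carrier := {c | (fun a : L => c (some a)) ∈ goppa F G L ∧ c none = - ∑ a : L, c (some a)}
  add_mem' := by
    rintro c d ⟨hc, hc'⟩ ⟨hd, hd'⟩
    refine ⟨(goppa F G L).add_mem hc hd, ?_⟩
    simp only [Pi.add_apply, Finset.sum_add_distrib, hc', hd']
    ring
  zero_mem' := ⟨(goppa F G L).zero_mem, by simp⟩
  smul_mem' := by
    rintro x c ⟨hc, hc'⟩
    refine ⟨(goppa F G L).smul_mem x hc, ?_⟩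
    simp only [Pi.smul_apply, smul_eq_mul, hc', ← Finset.mul_sum]
    ring

end

section

variable {F : Type} [Field F] {P : Type} [Fintype P]

/-- The code `C`, with coordinates indexed by the finite set `P`, is permutation-equivalent to a cyclic code: there is
a numbering `e` of the coordinates by `0, ..., N - 1` for which `C` is invariant under the cyclic shift. -/
def IsCyclicCode (C : Submodule F (P → F)) : Prop :=
  ∃ e : P ≃ ZMod (Fintype.card P), ∀ c ∈ C, (fun p => c (e.symm (e p - 1))) ∈ C

/-- Dimension at least `2` and minimum distance at least `3`. -/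
def Nontriv (C : Submodule F (P → F)) : Prop :=
  2 ≤ Module.finrank F C ∧ ∀ c ∈ C, c ≠ 0 → 3 ≤ {p | c p ≠ 0}.ncard

end

end ExtGoppa
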