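import Pool.Agent.Lib.MP_5eb8b0_lc.Defs

/-!
# The parity check equations of the Goppa codes
-/

set_option autoImplicit false

namespace ExtGoppa

open Polynomial

variable {F K : Type} [Field F] [Field K] [Algebra F K]

theorem invMod_eq {G : K[X]} {a : K} (h : G.eval a ≠ 0) :
    invMod G a = Ideal.Quotient.mk (Ideal.span {G}) (C (-(G.eval a)⁻¹) * (G /ₘ (X - C a))) := by
  have h1 : Ideal.Quotient.mk (Ideal.span {G}) (X - C a) *
      Ideal.Quotient.mk (Ideal.span {G}) (C (-(G.eval a)⁻¹) * (G /ₘ (X - C a))) = 1 := by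
    rw [← map_mul, ← map_one (Ideal.Quotient.mk (Ideal.span {G})), Ideal.Quotient.eq, Ideal.mem_span_singleton]
    refine ⟨C (-(G.eval a)⁻¹), ?_⟩
    have h2 : (X - C a) * (G /ₘ (X - C a)) = G - C (G.eval a) := by
      rw [X_sub_C_mul_divByMonic_eq_sub_modByMonic, modByMonic_X_sub_C_eq_C_eval]
    have h3 : C (-(G.eval a)⁻¹) * C (G.eval a) = (-1 : K[X]) := by
      rw [← C_mul, neg_mul, inv_mul_cancel₀ h, C_neg, C_1]
    calc (X - C a) * (C (-(G.eval a)⁻¹) * (G /ₘ (X - C a))) - 1
        = C (-(G.eval a)⁻¹) * ((X - C a) * (G /ₘ (X - C a))) - 1 := by ring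
      _ = C (-(G.eval a)⁻¹) * G - C (-(G.eval a)⁻¹) * C (G.eval a) - 1 := by rw [h2]; ring
      _ = G * C (-(G.eval a)⁻¹) := by rw [h3]; ring
  unfold invMod
  have hu : IsUnit (Ideal.Quotient.mk (Ideal.span {G}) (X - C a)) := IsUnit.of_mul_eq_one _ h1
  have h4 := Ring.inverse_mul_cancel _ hu
  calc Ring.inverse (Ideal.Quotient.mk (Ideal.span {G}) (X - C a))
      = Ring.inverse (Ideal.Quotient.mk (Ideal.span {G}) (X - C a)) *
        (Ideal.Quotient.mk (Ideal.span {G}) (X - C a) *
          Ideal.Quotient.mk (Ideal.span {G}) (C (-(G.eval a)⁻¹) * (G /ₘ (X - C a)))) := by rw [h1, mul_one]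
    _ = _ := by rw [← mul_assoc, h4, one_mul]

/-- The parity check equations. -/
theorem mem_goppa_iff {G : K[X]} (hG : 1 ≤ G.natDegree) {L : Finset K} (hL : ∀ a ∈ L, G.eval a ≠ 0) (c : L → F) :
    c ∈ goppa F G L ↔ ∀ i < G.natDegree, ∑ a : L, c a • ((a : K) ^ i / G.eval (a : K)) = 0 := by
  have hG0 : G ≠ 0 := by
    rintro rfl
    simp at hG
  let T : K[X] := ∑ a : L, C (algebraMap F K (c a)) * (C (-(G.eval (a : K))⁻¹) * (G /ₘ (X - C (a : K))))
  have h1 : c ∈ goppa F G L ↔ T = 0 := by
    have h2 : c ∈ goppa F G L ↔ Ideal.Quotient.mk (Ideal.span {G}) T = 0 := by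
      show ∑ a : L, Ideal.Quotient.mk (Ideal.span {G}) (C (algebraMap F K (c a))) * invMod G a = 0 ↔ _
      rw [map_sum]
      have h3 : ∀ a : L, Ideal.Quotient.mk (Ideal.span {G}) (C (algebraMap F K (c a))) * invMod G a =
          Ideal.Quotient.mk (Ideal.span {G})
            (C (algebraMap F K (c a)) * (C (-(G.eval (a : K))⁻¹) * (G /ₘ (X - C (a : K))))) := by
        intro a
        rw [invMod_eq (hL a a.2), ← map_mul]
      rw [Finset.sum_congr rfl fun a _ => h3 a]
    rw [h2, Ideal.Quotient.eq_zero_iff_mem, Ideal.mem_span_singleton]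
    constructor
    · intro h3
      refine eq_zero_of_dvd_of_natDegree_lt h3 ?_
      have h4 : T.natDegree ≤ G.natDegree - 1 := by
        refine natDegree_sum_le_of_forall_le _ _ fun a _ => ?_
        refine (natDegree_C_mul_le _ _).trans ((natDegree_C_mul_le _ _).trans ?_)
        rw [natDegree_divByMonic _ (monic_X_sub_C _), natDegree_X_sub_C]
      omega
    · intro h3
      rw [h3]
      exact dvd_zero _
  have hcoeff : ∀ n, T.coeff n = - ∑ i ∈ Finset.Icc (n + 1) G.natDegree,
      G.coeff i * ∑ a : L, c a • ((a : K) ^ (i - (n + 1)) / G.eval (a : K)) := by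
    intro n
    show (∑ a : L, C (algebraMap F K (c a)) * (C (-(G.eval (a : K))⁻¹) * (G /ₘ (X - C (a : K))))).coeff n = _
    rw [finsetSum_coeff]
    simp only [coeff_C_mul, coeff_divByMonic_X_sub_C, Finset.mul_sum]
    rw [Finset.sum_comm, ← Finset.sum_neg_distrib]
    refine Finset.sum_congr rfl fun i _ => ?_
    rw [← Finset.sum_neg_distrib]
    refine Finset.sum_congr rfl fun a _ => ?_
    rw [Algebra.smul_def]
    ring
  rw [h1]
  constructor
  · intro hT i
    induction i using Nat.strong_induction_on with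
    | _ j ih =>
      intro hj
      have h2 := hcoeff (G.natDegree - 1 - j)
      rw [hT, coeff_zero] at h2
      have h3 : ∑ i ∈ Finset.Icc (G.natDegree - 1 - j + 1) G.natDegree,
          G.coeff i * ∑ a : L, c a • ((a : K) ^ (i - (G.natDegree - 1 - j + 1)) / G.eval (a : K)) =
          G.coeff G.natDegree * ∑ a : L, c a • ((a : K) ^ j / G.eval (a : K)) := by
        have h4 : G.natDegree - (G.natDegree - 1 - j + 1) = j := by omega
        rw [Finset.sum_eq_single_of_mem G.natDegree (Finset.mem_Icc.2 ⟨by omega, le_rfl⟩), h4]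
        intro i hi hne
        rw [Finset.mem_Icc] at hi
        rw [ih (i - (G.natDegree - 1 - j + 1)) (by omega) (by omega), mul_zero]
      rw [h3] at h2
      have h5 : G.coeff G.natDegree ≠ 0 := by
        rw [coeff_natDegree]
        exact leadingCoeff_ne_zero.2 hG0
      exact (mul_eq_zero.1 (neg_eq_zero.1 h2.symm)).resolve_left h5
  · intro h
    ext n
    rw [hcoeff, coeff_zero, neg_eq_zero]
    refine Finset.sum_eq_zero fun i hi => ?_
    rw [Finset.mem_Icc] at hi
    rw [h _ (by omega), mul_zero]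

/-- The column of the parity check matrix at the coordinate `p`. -/
noncomputable def col (G : K[X]) {L : Finset K} : Option L → (Fin G.natDegree → K)
  | none => 0
  | some a => fun i => (a : K) ^ (i : ℕ) / G.eval (a : K)

theorem mem_extGoppa_iff {G : K[X]} (hG : 1 ≤ G.natDegree) {L : Finset K} (hL : ∀ a ∈ L, G.eval a ≠ 0)
    (c : Option L → F) : c ∈ extGoppa F G L ↔ ∑ p, c p = 0 ∧ ∑ p, c p • col G p = 0 := by
  have h1 : c ∈ extGoppa F G L ↔ (fun a : L => c (some a)) ∈ goppa F G L ∧ c none = - ∑ a : L, c (some a) := Iff.rfl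
  rw [h1, mem_goppa_iff hG hL, Fintype.sum_option, Fintype.sum_option, and_comm]
  refine and_congr ⟨fun h => by rw [h]; ring, fun h => by linear_combination h⟩ ?_
  have h2 : c none • col G (none : Option L) = 0 := smul_zero _
  rw [h2, zero_add, funext_iff]
  constructor
  · intro h i
    rw [Finset.sum_apply]
    exact h i i.2
  · intro h i hi
    have h3 := h ⟨i, hi⟩
    rw [Finset.sum_apply] at h3
    exact h3

end ExtGoppa
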