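import Pool.Agent.Lib.MP_5eb8b0_lc.Crit

/-!
# Every code with coordinate sum zero is an extended Goppa code
-/

set_option autoImplicit false

namespace ExtGoppa

open Polynomial

variable {F K : Type} [Field F] [Field K] [Algebra F K]

theorem exists_inj {V W : Type} [AddCommGroup V] [Module F V] [AddCommGroup W] [Module F W] [FiniteDimensional F V]
    [FiniteDimensional F W] (h : Module.finrank F V ≤ Module.finrank F W) :
    ∃ j : V →ₗ[F] W, Function.Injective j := by
  let b := Module.finBasis F V
  let b' := Module.finBasis F W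
  refine ⟨(b'.repr.symm : (Fin (Module.finrank F W) →₀ F) →ₗ[F] W) ∘ₗ (Finsupp.lmapDomain F F (Fin.castLE h)) ∘ₗ
    (b.repr : V →ₗ[F] (Fin (Module.finrank F V) →₀ F)), ?_⟩
  exact b'.repr.symm.injective.comp ((Finsupp.mapDomain_injective (Fin.castLE_injective h)).comp b.repr.injective)

section

variable {P : Type} [Fintype P]

/-- the sum of the coordinates -/
noncomputable def sumL (F : Type) [Field F] (P : Type) [Fintype P] : (P → F) →ₗ[F] F :=
  Fintype.linearCombination F (fun _ : P => (1 : F))

theorem sumL_apply (c : P → F) : sumL F P c = ∑ p, c p := by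
  unfold sumL
  rw [Fintype.linearCombination_apply]
  simp

theorem finrank_ker_sumL [Nonempty P] : Module.finrank F (LinearMap.ker (sumL F P)) + 1 = Fintype.card P := by
  classical
  have h1 := LinearMap.finrank_range_add_finrank_ker (sumL F P)
  have h2 : LinearMap.range (sumL F P) = ⊤ := by
    rw [LinearMap.range_eq_top]
    intro x
    obtain ⟨p⟩ := ‹Nonempty P›
    refine ⟨Pi.single p x, ?_⟩
    rw [sumL_apply]
    simp
  rw [h2, finrank_top, Module.finrank_self, Module.finrank_fintype_fun_eq_card] at h1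
  omega

theorem exists_cols [FiniteDimensional F K] (C : Submodule F (P → F)) (p0 : P) (hsum : ∀ c ∈ C, ∑ p, c p = 0)
    (h : Fintype.card P ≤ Module.finrank F C + Module.finrank F K + 1) :
    ∃ β : P → K, β p0 = 0 ∧ ∀ c, c ∈ C ↔ ∑ p, c p = 0 ∧ ∑ p, c p • β p = 0 := by
  classical
  have hP : Nonempty P := ⟨p0⟩
  let Z : Submodule F (P → F) := LinearMap.ker (sumL F P)
  have hZ : ∀ c, c ∈ Z ↔ ∑ p, c p = 0 := fun c => by
    show sumL F P c = 0 ↔ _
    rw [sumL_apply]
  have hCZ : C ≤ Z := fun c hc => (hZ c).2 (hsum c hc)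
  let C' : Submodule F Z := C.submoduleOf Z
  have h1 : Module.finrank F C' = Module.finrank F C := (Submodule.submoduleOfEquivOfLe hCZ).finrank_eq
  have h2 := Submodule.finrank_quotient_add_finrank C'
  have h3 : Module.finrank F Z + 1 = Fintype.card P := finrank_ker_sumL
  obtain ⟨j, hj⟩ := exists_inj (F := F) (V := Z ⧸ C') (W := K) (by omega)
  let ψ : Z →ₗ[F] K := j ∘ₗ C'.mkQ
  have hψ : ∀ z : Z, ψ z = 0 ↔ (z : P → F) ∈ C := by
    intro z
    show j (C'.mkQ z) = 0 ↔ _
    rw [map_eq_zero_iff j hj, Submodule.mkQ_apply, Submodule.Quotient.mk_eq_zero]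
    rfl
  have hd : ∀ p, (Pi.single p 1 - Pi.single p0 1 : P → F) ∈ Z := by
    intro p
    rw [hZ]
    simp only [Pi.sub_apply, Finset.sum_sub_distrib]
    rw [Finset.sum_pi_single', Finset.sum_pi_single']
    simp
  let δ : P → Z := fun p => ⟨_, hd p⟩
  refine ⟨fun p => ψ (δ p), ?_, ?_⟩
  · have h4 : δ p0 = 0 := Subtype.ext (sub_self _)
    show ψ (δ p0) = 0
    rw [h4, map_zero]
  · have key : ∀ c (hc : c ∈ Z), ψ ⟨c, hc⟩ = ∑ p, c p • ψ (δ p) := by
      intro c hc
      have h4 : (⟨c, hc⟩ : Z) = ∑ p, c p • δ p := by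
        apply Subtype.ext
        rw [AddSubmonoidClass.coe_finsetSum]
        show c = ∑ p, c p • (Pi.single p 1 - Pi.single p0 1 : P → F)
        simp only [smul_sub, Finset.sum_sub_distrib, ← Finset.sum_smul]
        rw [(hZ c).1 hc, zero_smul, sub_zero]
        funext q
        rw [Finset.sum_apply]
        simp [Pi.single_apply]
      rw [h4, map_sum]
      exact Finset.sum_congr rfl fun p _ => map_smul ψ _ _
    intro c
    constructor
    · intro hc
      refine ⟨hsum c hc, ?_⟩
      rw [← key c (hCZ hc), hψ]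
      exact hc
    · rintro ⟨hc, hc'⟩
      rw [← key c ((hZ c).2 hc), hψ] at hc'
      exact hc'

/-- The nontrivial codes which are equivalent to an extended Goppa code over `K` with `deg G = 1`. -/
theorem univ_iff [FiniteDimensional F K] (C : Submodule F (P → F)) (hC : Nontriv C) :
    (∃ (G : K[X]) (L : Finset K), G.natDegree = 1 ∧ (∀ a ∈ L, G.eval a ≠ 0) ∧
      ∃ e : P ≃ Option L, ∀ c, c ∈ C ↔ (fun p => c (e.symm p)) ∈ extGoppa F G L) ↔
    (∀ c ∈ C, ∑ p, c p = 0) ∧ Fintype.card P ≤ Module.finrank F C + Module.finrank F K + 1 := by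
  classical
  constructor
  · rintro ⟨G, L, hG, hL, e, he⟩
    have hi : 0 < G.natDegree := by omega
    let w : P → K := fun p => col G (e p) ⟨0, hi⟩
    have h1 : ∀ c, c ∈ C ↔ ∑ p, c p = 0 ∧ ∑ p, c p • w p = 0 := by
      intro c
      rw [he, mem_extGoppa_iff (by omega) hL, ← Equiv.sum_comp e, ← Equiv.sum_comp e]
      simp only [Equiv.symm_apply_apply]
      refine and_congr Iff.rfl ?_
      rw [funext_iff]
      constructor
      · intro h
        have h2 := h ⟨0, hi⟩
        rw [Finset.sum_apply] at h2
        exact h2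
      · intro h i
        have h3 : i = ⟨0, hi⟩ := Fin.ext (by have := i.2; show (i : ℕ) = 0; omega)
        rw [h3, Finset.sum_apply]
        exact h
    refine ⟨fun c hc => ((h1 c).1 hc).1, ?_⟩
    let T : (P → F) →ₗ[F] F × K := (sumL F P).prod (Fintype.linearCombination F w)
    have h2 : LinearMap.ker T = C := by
      ext c
      rw [LinearMap.mem_ker, h1]
      show (sumL F P c, Fintype.linearCombination F w c) = 0 ↔ _
      rw [sumL_apply, Fintype.linearCombination_apply, Prod.mk_eq_zero]
    have h3 := LinearMap.finrank_range_add_finrank_ker T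
    rw [h2, Module.finrank_fintype_fun_eq_card] at h3
    have h4 := Submodule.finrank_le (LinearMap.range T)
    rw [Module.finrank_prod, Module.finrank_self] at h4
    omega
  · rintro ⟨hsum, hcard⟩
    obtain ⟨c0, hc0, hc0'⟩ : ∃ c ∈ C, c ≠ 0 := by
      by_contra hall
      push Not at hall
      have h1 : C = ⊥ := (Submodule.eq_bot_iff C).2 hall
      have h2 := hC.1
      rw [h1, finrank_bot] at h2
      omega
    obtain ⟨p0, -⟩ := Function.ne_iff.1 hc0'
    obtain ⟨β, hβ0, hβ⟩ := exists_cols (K := K) C p0 hsum hcard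
    have hinj := col_inj C β hβ hC.2
    let L : Finset K := (Finset.univ.filter (fun p => p ≠ p0)).image (fun p => (β p)⁻¹)
    have hβne : ∀ p, p ≠ p0 → β p ≠ 0 := fun p hp h => hp (hinj (h.trans hβ0.symm))
    have hmem : ∀ p, p ≠ p0 → (β p)⁻¹ ∈ L := fun p hp =>
      Finset.mem_image.2 ⟨p, Finset.mem_filter.2 ⟨Finset.mem_univ _, hp⟩, rfl⟩
    let f : P → Option L := fun p => if h : p = p0 then none else some ⟨(β p)⁻¹, hmem p h⟩
    have hf0 : f p0 = none := dif_pos rfl
    have hf1 : ∀ p (h : p ≠ p0), f p = some ⟨(β p)⁻¹, hmem p h⟩ := fun p h => dif_neg h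
    have hbij : Function.Bijective f := by
      constructor
      · intro p q hpq
        by_cases hp : p = p0
        · by_cases hq : q = p0
          · rw [hp, hq]
          · rw [hp, hf0, hf1 q hq] at hpq
            cases hpq
        · by_cases hq : q = p0
          · rw [hq, hf0, hf1 p hp] at hpq
            cases hpq
          · rw [hf1 p hp, hf1 q hq] at hpq
            have h1 := congrArg Subtype.val (Option.some_injective _ hpq)
            exact hinj (inv_injective h1)
      · rintro (_ | ⟨a, ha⟩)
        · exact ⟨p0, hf0⟩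
        · obtain ⟨p, hp, hpa⟩ := Finset.mem_image.1 ha
          have hp' : p ≠ p0 := (Finset.mem_filter.1 hp).2
          refine ⟨p, ?_⟩
          rw [hf1 p hp']
          congr 1
          exact Subtype.ext hpa
    have hL : ∀ a ∈ L, (X : K[X]).eval a ≠ 0 := by
      intro a ha
      obtain ⟨p, hp, rfl⟩ := Finset.mem_image.1 ha
      rw [eval_X]
      exact inv_ne_zero (hβne p (Finset.mem_filter.1 hp).2)
    refine ⟨X, L, natDegree_X, hL, Equiv.ofBijective f hbij, fun c => ?_⟩
    have hcol : ∀ p, col (X : K[X]) (f p) = fun _ => β p := by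
      intro p
      by_cases hp : p = p0
      · rw [hp, hf0]
        funext i
        exact hβ0.symm
      · rw [hf1 p hp]
        funext i
        have hi : (i : ℕ) = 0 := by
          have h1 : (i : ℕ) < (X : K[X]).natDegree := i.2
          have h2 : (X : K[X]).natDegree = 1 := natDegree_X
          omega
        show ((β p)⁻¹) ^ (i : ℕ) / (X : K[X]).eval ((β p)⁻¹) = β p
        rw [hi, pow_zero, eval_X, one_div, inv_inv]
    rw [mem_extGoppa_iff (by rw [natDegree_X]) hL, ← Equiv.sum_comp (Equiv.ofBijective f hbij),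
      ← Equiv.sum_comp (Equiv.ofBijective f hbij), hβ]
    have hcol' : ∀ p, col (X : K[X]) (Equiv.ofBijective f hbij p) = fun _ => β p := hcol
    simp only [Equiv.symm_apply_apply, hcol']
    refine and_congr Iff.rfl ?_
    rw [funext_iff]
    constructor
    · intro h i
      rw [Finset.sum_apply]
      exact h
    · intro h
      have h1 := h ⟨0, by rw [natDegree_X]; norm_num⟩
      rw [Finset.sum_apply] at h1
      exact h1

end

end ExtGoppa
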